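import Pool.Agent.Helper14.LK.St
import Pool.Agent.Helper14.LK.Basic

set_option autoImplicit false

namespace Pool.Agent.Helper89.LK

open Pool.Agent.Helper14.LK
open scoped ContDiff Topology
open MeasureTheory Set Filter

theorem hFLO (hFLB : StFLB) : StFLO := by
  intro E _ _ _ V hV hL
  obtain ⟨K, hK⟩ := hL
  set W : ℝ × E → ℝ × E := fun z => (1, V z.1 z.2) with hW
  have hWs : ContDiff ℝ ∞ W := by
    refine ContDiff.prodMk contDiff_const ?_
    exact hV
  have hWl : LipschitzWith (max 0 K) W := by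
    exact (LipschitzWith.const (1 : ℝ)).prodMk hK
  obtain ⟨Ψ, hΨs, hΨ0, hΨd⟩ := hFLB (ℝ × E) W hWs ⟨_, hWl⟩
  -- first component
  have hfst : ∀ s z, (Ψ s z).1 = z.1 + s := by
    intro s z
    have hd : ∀ u, HasDerivAt (fun u => (Ψ u z).1 - u) 0 u := by
      intro u
      have h1 : HasDerivAt (fun u => (Ψ u z).1) 1 u := (hΨd u z).fst
      have h2 := h1.sub (hasDerivAt_id u)
      rw [sub_self] at h2
      exact h2
    have hc := is_const_of_deriv_eq_zero (f := fun u => (Ψ u z).1 - u)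
      (fun u => (hd u).differentiableAt) (fun u => (hd u).deriv) s 0
    simp only [hΨ0] at hc
    linarith
  -- group law
  have hgrp : ∀ s t z, Ψ (s + t) z = Ψ s (Ψ t z) := by
    intro s t z
    have h1 : ∀ u, HasDerivAt (fun u => Ψ (u + t) z) (W (Ψ (u + t) z)) u := by
      intro u
      exact (hΨd (u + t) z).comp_add_const u t
    have h2 : ∀ u, HasDerivAt (fun u => Ψ u (Ψ t z)) (W (Ψ u (Ψ t z))) u := fun u => hΨd u _
    have h := ODE_solution_unique_univ (v := fun _ => W) (s := fun _ => univ) (K := max 0 K) (t₀ := 0)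
      (f := fun u => Ψ (u + t) z) (g := fun u => Ψ u (Ψ t z))
      (fun _ => hWl.lipschitzOnWith) (fun u => ⟨h1 u, mem_univ _⟩) (fun u => ⟨h2 u, mem_univ _⟩)
      (by simp [hΨ0])
    exact congrFun h s
  refine ⟨fun t x => (Ψ t (0, x)).2, fun t x => (Ψ (-t) (t, x)).2, ?_, ?_, ?_, ?_, ?_, ?_⟩
  · have : Function.uncurry (fun (t : ℝ) (x : E) => (Ψ t (0, x)).2)
        = fun p : ℝ × E => (Function.uncurry Ψ (p.1, ((0 : ℝ), p.2))).2 := by
      funext p; rfl
    rw [this]
    exact contDiff_snd.comp (hΨs.comp (contDiff_fst.prodMk (contDiff_const.prodMk contDiff_snd)))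
  · have : Function.uncurry (fun (t : ℝ) (x : E) => (Ψ (-t) (t, x)).2)
        = fun p : ℝ × E => (Function.uncurry Ψ (-p.1, (p.1, p.2))).2 := by
      funext p; rfl
    rw [this]
    exact contDiff_snd.comp (hΨs.comp (contDiff_fst.neg.prodMk (contDiff_fst.prodMk contDiff_snd)))
  · intro x
    simp [hΨ0]
  · intro t x
    have h : HasDerivAt (fun s => (Ψ s (0, x)).2) (W (Ψ t (0, x))).2 t := (hΨd t (0, x)).snd
    have h1 : (Ψ t (0, x)).1 = t := by rw [hfst]; simp
    have h2 : (W (Ψ t (0, x))).2 = V t (Ψ t (0, x)).2 := by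
      change V (Ψ t (0, x)).1 (Ψ t (0, x)).2 = _
      rw [h1]
    rw [h2] at h
    exact h
  · intro t x
    have h1 : Ψ (-t) (t, x) = (0, (Ψ (-t) (t, x)).2) := by
      refine Prod.ext ?_ rfl
      rw [hfst]; simp
    have h2 := hgrp t (-t) (t, x)
    rw [h1] at h2
    simp only [add_neg_cancel, hΨ0] at h2
    have h3 := congrArg Prod.snd h2
    simpa using h3.symm
  · intro t x
    have h1 : Ψ t (0, x) = (t, (Ψ t (0, x)).2) := by
      refine Prod.ext ?_ rfl
      rw [hfst]; simp
    have h2 := hgrp (-t) t (0, x)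
    rw [h1] at h2
    simp only [neg_add_cancel, hΨ0] at h2
    have h3 := congrArg Prod.snd h2
    simpa using h3.symm

end Pool.Agent.Helper89.LK
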